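import Pool.Agent.H73.SMD.Stmts

/-!
# Board `smd`, row SEL: the touching disc
-/

set_option autoImplicit false

open Set Filter Topology MeasureTheory Metric

namespace Pool.SMD

open Pool.PHS Pool.LPC

lemma SEL_punc (c : ℂ) (κ : ℝ) : IsPreconnected {t : ℂ | 0 < ‖t - c‖ ∧ ‖t - c‖ < κ} := by
  have h1 : {t : ℂ | 0 < ‖t - c‖ ∧ ‖t - c‖ < κ} =
      (fun p : ℝ × ℝ => c + (p.1 : ℂ) * Complex.exp ((p.2 : ℂ) * Complex.I)) ''
        (Ioo 0 κ ×ˢ (univ : Set ℝ)) := by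
    ext t
    constructor
    · rintro ⟨h1, h2⟩
      refine ⟨(‖t - c‖, Complex.arg (t - c)), ⟨⟨h1, h2⟩, mem_univ _⟩, ?_⟩
      dsimp only
      rw [Complex.norm_mul_exp_arg_mul_I]
      ring
    · rintro ⟨⟨r, θ⟩, ⟨⟨h1, h2⟩, -⟩, rfl⟩
      dsimp only at h1 h2 ⊢
      have h3 : ‖c + (r : ℂ) * Complex.exp ((θ : ℂ) * Complex.I) - c‖ = r := by
        rw [add_sub_cancel_left, norm_mul, Complex.norm_exp_ofReal_mul_I, mul_one,
          Complex.norm_real, Real.norm_of_nonneg h1.le]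
      exact ⟨by rw [h3]; exact h1, by rw [h3]; exact h2⟩
  rw [h1]
  refine (isPreconnected_Ioo.prod isPreconnected_univ).image _ (Continuous.continuousOn ?_)
  fun_prop

lemma SEL_half (u : ℂ) (h1 : ‖u‖ < 2) (h2 : ‖u‖ < 2 * u.re) : ‖u / 2 - 1‖ < 1 := by
  have h3 : ‖u‖ ^ 2 = u.re ^ 2 + u.im ^ 2 := by
    rw [Complex.sq_norm, Complex.normSq_apply]
    ring
  have h4 : ‖u / 2 - 1‖ ^ 2 = (u.re / 2 - 1) ^ 2 + (u.im / 2) ^ 2 := by
    rw [Complex.sq_norm, Complex.normSq_apply]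
    simp
    ring
  have h5 : 0 ≤ ‖u‖ := norm_nonneg u
  have h6 : ‖u / 2 - 1‖ ^ 2 < 1 ^ 2 := by
    rw [h4]
    nlinarith
  exact lt_of_pow_lt_pow_left₀ 2 (by norm_num) h6

/-- Row SEL. -/
theorem SEL_thm : SELStmt := by
  intro D C₀ h hD hDc hh hmap hC₀ hne hsub hneq hfix hbd
  -- the boundary point
  obtain ⟨z₀, hz₀D, hz₀c, hz₀n⟩ : ∃ z₀ ∈ D, z₀ ∈ closure C₀ ∧ z₀ ∉ C₀ := by
    by_contra hcon
    push Not at hcon
    apply hneq
    refine hsub.antisymm ?_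
    obtain ⟨q, hq⟩ := hne
    refine hDc.isPreconnected.subset_of_closure_inter_subset hC₀ ⟨q, hsub hq, hq⟩ ?_
    rintro z ⟨h1, h2⟩
    exact hcon z h2 h1
  obtain ⟨τ, hτ, hball⟩ := Metric.isOpen_iff.1 hD z₀ hz₀D
  obtain ⟨z₁, hz₁C, hz₁⟩ := Metric.mem_closure_iff.1 hz₀c (τ / 2) (by positivity)
  have hline : ∀ t ∈ ball (0 : ℂ) 2, z₀ + t • (z₁ - z₀) ∈ D := by
    intro t ht
    apply hball
    rw [mem_ball_zero_iff] at ht
    rw [mem_ball, dist_eq_norm, add_sub_cancel_left, norm_smul]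
    rw [dist_comm, dist_eq_norm] at hz₁
    have h0 : 0 ≤ ‖z₁ - z₀‖ := norm_nonneg _
    nlinarith [norm_nonneg t]
  obtain ⟨T, hT⟩ : ∃ T : Set ℂ, T = {t | t ∈ ball (0 : ℂ) 2 ∧ z₀ + t • (z₁ - z₀) ∈ C₀} :=
    ⟨_, rfl⟩
  have hTm : ∀ t, t ∈ T ↔ t ∈ ball (0 : ℂ) 2 ∧ z₀ + t • (z₁ - z₀) ∈ C₀ := by
    intro t
    rw [hT]
    rfl
  have hcont : Continuous fun t : ℂ => z₀ + t • (z₁ - z₀) := by fun_prop
  have oT : IsOpen T := by
    rw [hT]
    exact isOpen_ball.inter (hC₀.preimage hcont)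
  have h1T : (1 : ℂ) ∈ T := by
    rw [hTm]
    refine ⟨by rw [mem_ball_zero_iff]; norm_num, ?_⟩
    rw [one_smul, add_sub_cancel]
    exact hz₁C
  have h0T : (0 : ℂ) ∉ T := by
    rw [hTm]
    rintro ⟨-, h1⟩
    rw [zero_smul, add_zero] at h1
    exact hz₀n h1
  obtain ⟨ψ₀, hψ₀⟩ : ∃ ψ₀ : ℂ → Cn 2, ψ₀ = fun t => h (z₀ + t • (z₁ - z₀)) := ⟨_, rfl⟩
  have dψ : DifferentiableOn ℂ ψ₀ (ball 0 2) := by
    rw [hψ₀]
    refine hh.comp (Differentiable.differentiableOn ?_) hline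
    fun_prop
  have hcl : ∀ t ∈ ball (0 : ℂ) 2, ψ₀ t ∈ closure D := by
    intro t ht
    rw [hψ₀]
    exact hmap (hline t ht)
  have hTD : ∀ t ∈ T, ψ₀ t ∈ D ∧ h (ψ₀ t) = ψ₀ t := by
    intro t ht
    rw [hψ₀]
    exact hfix _ ((hTm t).1 ht).2
  have hTb : ∀ t ∈ ball (0 : ℂ) 2, t ∈ closure T → t ∉ T → ψ₀ t ∉ D := by
    intro t ht h1 h2
    rw [hψ₀]
    refine hbd _ (hline t ht) ?_ (fun h3 => h2 ((hTm t).2 ⟨ht, h3⟩))
    refine closure_mono ?_ (image_closure_subset_closure_image hcont ⟨t, h1, rfl⟩)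
    rintro _ ⟨s, hs, rfl⟩
    exact ((hTm s).1 hs).2
  -- a boundary point in the line
  obtain ⟨t', ht'b, ht'c, ht'n⟩ : ∃ t' ∈ ball (0 : ℂ) 2, t' ∈ closure T ∧ t' ∉ T := by
    by_contra hcon
    push Not at hcon
    have h1 : ball (0 : ℂ) 2 ⊆ T := by
      refine isPreconnected_ball.subset_of_closure_inter_subset oT ⟨1, ((hTm 1).1 h1T).1, h1T⟩ ?_
      rintro z ⟨h1, h2⟩
      exact hcon z h2 h1
    exact h0T (h1 (by simp))
  have anψ : AnalyticAt ℂ (deriv ψ₀) t' := (dψ.analyticAt (isOpen_ball.mem_nhds ht'b)).deriv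
  obtain ⟨κ, hκ, hκb, hκd⟩ : ∃ κ > 0, ball t' κ ⊆ ball (0 : ℂ) 2 ∧
      ∀ t ∈ ball t' κ, t ≠ t' → deriv ψ₀ t ≠ 0 := by
    obtain ⟨κ₁, hκ₁, hκ₁b⟩ := Metric.isOpen_iff.1 (isOpen_ball : IsOpen (ball (0 : ℂ) 2)) t' ht'b
    rcases anψ.eventually_eq_zero_or_eventually_ne_zero with hz | hz
    · exfalso
      obtain ⟨κ₂, hκ₂, hκ₂z⟩ := Metric.eventually_nhds_iff_ball.1 hz
      have hm : 0 < min κ₁ κ₂ := lt_min hκ₁ hκ₂
      obtain ⟨s, hs, hsT⟩ : ∃ s ∈ T, dist s t' < min κ₁ κ₂ := by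
        obtain ⟨s, hs, hs'⟩ := Metric.mem_closure_iff.1 ht'c _ hm
        exact ⟨s, hs, by rwa [dist_comm]⟩
      have hc : ψ₀ s = ψ₀ t' := by
        refine isOpen_ball.is_const_of_deriv_eq_zero (s := ball t' (min κ₁ κ₂))
          isPreconnected_ball (dψ.mono ?_) ?_ hsT (mem_ball_self hm)
        · exact (ball_subset_ball (min_le_left _ _)).trans hκ₁b
        · intro t ht
          exact hκ₂z t (ball_subset_ball (min_le_right _ _) ht)
      exact hTb t' ht'b ht'c ht'n (hc ▸ (hTD s hs).1)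
    · rw [eventually_nhdsWithin_iff] at hz
      obtain ⟨κ₂, hκ₂, hκ₂z⟩ := Metric.eventually_nhds_iff_ball.1 hz
      exact ⟨min κ₁ κ₂, lt_min hκ₁ hκ₂, (ball_subset_ball (min_le_left _ _)).trans hκ₁b,
        fun t ht hne => hκ₂z t (ball_subset_ball (min_le_right _ _) ht) hne⟩
  by_cases hA : ∀ t ∈ ball t' κ, t ≠ t' → t ∈ T
  · -- an isolated boundary point
    have hin : ∀ u ∈ ball (0 : ℂ) 2, t' + ((κ / 2 : ℝ) : ℂ) * u ∈ ball t' κ := by
      intro u hu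
      rw [mem_ball_zero_iff] at hu
      rw [mem_ball, dist_eq_norm, add_sub_cancel_left, norm_mul, Complex.norm_real,
        Real.norm_of_nonneg (by positivity)]
      nlinarith
    have hne' : ∀ u : ℂ, u ≠ 0 → t' + ((κ / 2 : ℝ) : ℂ) * u ≠ t' := by
      intro u hu h1
      rw [add_eq_left, mul_eq_zero] at h1
      rcases h1 with h1 | h1
      · rw [Complex.ofReal_eq_zero] at h1
        linarith
      · exact hu h1
    refine ⟨fun u => ψ₀ (t' + ((κ / 2 : ℝ) : ℂ) * u), ?_, ?_, ?_, ?_, Or.inr ?_⟩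
    · refine dψ.comp (Differentiable.differentiableOn ?_) (fun u hu => hκb (hin u hu))
      fun_prop
    · exact fun u hu => hcl _ (hκb (hin u hu))
    · dsimp only
      rw [mul_zero, add_zero]
      exact hTb t' ht'b ht'c ht'n
    · intro u hu hsec
      refine hTD _ (hA _ (hin u hu) (hne' u ?_))
      rintro rfl
      simp at hsec
    · intro u hu hu0
      exact (hTD _ (hA _ (hin u hu) (hne' u hu0))).1
  · push Not at hA
    obtain ⟨t₅', h5b, h5n, h5T⟩ := hA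
    obtain ⟨P, hP⟩ : ∃ P : Set ℂ, P = {t : ℂ | 0 < ‖t - t'‖ ∧ ‖t - t'‖ < κ} := ⟨_, rfl⟩
    have hPm : ∀ t, t ∈ P ↔ 0 < ‖t - t'‖ ∧ ‖t - t'‖ < κ := by
      intro t
      rw [hP]
      rfl
    have oP : IsOpen P := by
      rw [hP]
      have hc : Continuous fun t : ℂ => ‖t - t'‖ := by fun_prop
      exact (isOpen_lt continuous_const hc).inter (isOpen_lt hc continuous_const)
    have cP : IsPreconnected P := by
      rw [hP]
      exact SEL_punc t' κ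
    have hPb : P ⊆ ball t' κ := by
      intro t ht
      rw [mem_ball, dist_eq_norm]
      exact ((hPm t).1 ht).2
    have hPn : ∀ t ∈ P, t ≠ t' := by
      rintro t ht rfl
      have := ((hPm t).1 ht).1
      simp at this
    obtain ⟨t₅, ht5P, ht5c, ht5n⟩ : ∃ t₅ ∈ P, t₅ ∈ closure T ∧ t₅ ∉ T := by
      by_contra hcon
      push Not at hcon
      have hTP : (P ∩ T).Nonempty := by
        obtain ⟨s, hs, hs'⟩ := Metric.mem_closure_iff.1 ht'c κ hκ
        refine ⟨s, (hPm s).2 ⟨?_, ?_⟩, hs⟩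
        · rw [norm_pos_iff, sub_ne_zero]
          rintro rfl
          exact ht'n hs
        · rwa [dist_comm, dist_eq_norm] at hs'
      have h1 : P ⊆ T := by
        refine cP.subset_of_closure_inter_subset oT hTP ?_
        rintro z ⟨h1, h2⟩
        exact hcon z h2 h1
      refine h5T (h1 ((hPm _).2 ⟨?_, ?_⟩))
      · rw [norm_pos_iff, sub_ne_zero]
        exact h5n
      · rwa [mem_ball, dist_eq_norm] at h5b
    obtain ⟨d₀, hd₀, hd₀P⟩ := Metric.isOpen_iff.1 oP t₅ ht5P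
    obtain ⟨d, hd, hdP⟩ : ∃ d > 0, ball t₅ (4 * d) ⊆ P :=
      ⟨d₀ / 4, by positivity, (ball_subset_ball (by linarith)).trans hd₀P⟩
    obtain ⟨t₄, ht₄, ht₄d⟩ := Metric.mem_closure_iff.1 ht5c d hd
    obtain ⟨t₃, ht₃, hR⟩ := oT.isClosed_compl.exists_infDist_eq_dist ⟨0, h0T⟩ t₄
    have hRT : ∀ t, dist t t₄ < dist t₄ t₃ → t ∈ T := by
      intro t ht
      by_contra hcon
      have h1 : infDist t₄ Tᶜ ≤ dist t₄ t := infDist_le_dist_of_mem hcon
      rw [hR] at h1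
      rw [dist_comm] at ht
      linarith
    have hRd : dist t₄ t₃ < d := by
      rw [← hR]
      refine lt_of_le_of_lt (infDist_le_dist_of_mem ht5n) ?_
      rwa [dist_comm]
    have ht43 : t₄ ≠ t₃ := by
      rintro rfl
      exact ht₃ ht₄
    have hR0 : 0 < dist t₄ t₃ := dist_pos.2 ht43
    have ht₃c : t₃ ∈ closure T := by
      have h1 : closure (ball t₄ (dist t₄ t₃)) ⊆ closure T :=
        closure_mono (fun t ht => hRT t ht)
      apply h1
      rw [closure_ball t₄ hR0.ne', mem_closedBall, dist_comm]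
    have ht₃d : dist t₃ t₅ < 2 * d := by
      have h1 := dist_triangle t₃ t₄ t₅
      rw [dist_comm t₃ t₄, dist_comm t₄ t₅] at h1
      linarith
    have ht₃P : t₃ ∈ P := hdP (by rw [mem_ball]; linarith)
    obtain ⟨s, hs⟩ : ∃ s : ℂ, s = (t₄ - t₃) / 2 := ⟨_, rfl⟩
    have hs0 : s ≠ 0 := by
      rw [hs]
      exact div_ne_zero (sub_ne_zero.2 ht43) two_ne_zero
    have hsn : ‖s‖ = dist t₄ t₃ / 2 := by
      rw [hs, norm_div, dist_eq_norm]
      norm_num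
    have hin : ∀ u ∈ ball (0 : ℂ) 2, t₃ + s * u ∈ P := by
      intro u hu
      rw [mem_ball_zero_iff] at hu
      apply hdP
      rw [mem_ball]
      have h1 : dist (t₃ + s * u) t₃ ≤ dist t₄ t₃ := by
        rw [dist_eq_norm, add_sub_cancel_left, norm_mul, hsn]
        nlinarith [norm_nonneg u]
      have h2 := dist_triangle (t₃ + s * u) t₃ t₅
      linarith
    have hin2 : ∀ u ∈ ball (0 : ℂ) 2, t₃ + s * u ∈ ball (0 : ℂ) 2 :=
      fun u hu => hκb (hPb (hin u hu))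
    refine ⟨fun u => ψ₀ (t₃ + s * u), ?_, ?_, ?_, ?_, Or.inl ?_⟩
    · refine dψ.comp (Differentiable.differentiableOn ?_) (fun u hu => hin2 u hu)
      fun_prop
    · exact fun u hu => hcl _ (hin2 u hu)
    · dsimp only
      rw [mul_zero, add_zero]
      exact hTb t₃ (hκb (hPb ht₃P)) ht₃c ht₃
    · intro u hu hsec
      refine hTD _ (hRT _ ?_)
      rw [mem_ball_zero_iff] at hu
      have h1 : t₃ + s * u - t₄ = (t₄ - t₃) * (u / 2 - 1) := by
        rw [hs]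
        ring
      rw [dist_eq_norm, h1, norm_mul, ← dist_eq_norm]
      have h2 := SEL_half u hu hsec
      nlinarith
    · have hd1 : HasDerivAt (fun u : ℂ => t₃ + s * u) s 0 := by
        simpa using ((hasDerivAt_id (0 : ℂ)).const_mul s).const_add t₃
      have hd2 : HasDerivAt ψ₀ (deriv ψ₀ t₃) (t₃ + s * 0) := by
        rw [mul_zero, add_zero]
        exact (dψ.differentiableAt (isOpen_ball.mem_nhds (hκb (hPb ht₃P)))).hasDerivAt
      have hd3 : HasDerivAt (fun u : ℂ => ψ₀ (t₃ + s * u)) (s • deriv ψ₀ t₃) 0 :=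
        hd2.scomp (0 : ℂ) hd1
      rw [hd3.deriv]
      exact smul_ne_zero hs0 (hκd t₃ (hPb ht₃P) (hPn t₃ ht₃P))

end Pool.SMD
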